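import Pool.Agent.MP_86c931_ag.H56.RowsA

/-! The blow-up of an ideal, described inside a field. -/

namespace Pool.Agent.MP_86c931_ag.H19

open AlgebraicGeometry CategoryTheory TopologicalSpace Opposite HomogeneousLocalization H56

lemma zero_not {A : Type} [CommRing A] (p : Ideal A) [p.IsPrime] : 0 ∉ p.primeCompl :=
  fun h => h p.zero_mem

lemma fn_comp {R S : Type} [CommRing R] [CommRing S] {Y : Scheme.{0}} (φ : R →+* S)
    (ρ : Y ⟶ Spec (CommRingCat.of S)) (f : R) (U : Y.Opens) :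
    fn (ρ ≫ Spec.map (CommRingCat.ofHom φ)) f U = fnHom ρ U (φ f) := by
  have h := congrArg (fun ψ => ψ.hom f) (Scheme.ΓSpecIso_inv_naturality (CommRingCat.ofHom φ))
  exact congrArg (fun a => rs le_top (ρ.appTop.hom a)) h.symm

lemma isIso_res {X Y W : Scheme.{0}} (ρ : X ⟶ Y) (j : W ⟶ X) [IsOpenImmersion j]
    [IsOpenImmersion (j ≫ ρ)] (V : Y.Opens) (h1 : j.opensRange = ρ ⁻¹ᵁ V)
    (h2 : (j ≫ ρ).opensRange = V) : IsIso (ρ ∣_ V) := by
  have e1 : Set.range j = Set.range (ρ ⁻¹ᵁ V).ι := by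
    rw [Scheme.Opens.range_ι, ← h1]; rfl
  have e2 : Set.range (j ≫ ρ) = Set.range V.ι := by
    rw [Scheme.Opens.range_ι, ← h2]; rfl
  have : (IsOpenImmersion.isoOfRangeEq _ _ e1).hom ≫ ρ ∣_ V =
      (IsOpenImmersion.isoOfRangeEq _ _ e2).hom := by
    rw [← cancel_mono V.ι, Category.assoc, morphismRestrict_ι, ← Category.assoc,
      IsOpenImmersion.isoOfRangeEq_hom_fac, IsOpenImmersion.isoOfRangeEq_hom_fac]
  have : IsIso ((IsOpenImmersion.isoOfRangeEq _ _ e1).hom ≫ ρ ∣_ V) := this ▸ inferInstance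
  exact IsIso.of_isIso_comp_left (IsOpenImmersion.isoOfRangeEq _ _ e1).hom _

section general

variable {A K σ : Type} [CommRing A] [SetLike σ A] [AddSubgroupClass σ A] (𝒜 : ℕ → σ)
  [GradedRing 𝒜]

/-- the value of a section at a point -/
noncomputable def valAt (U : (Proj 𝒜).Opens) (x : Proj 𝒜) (hx : x ∈ U) :
    Γ(Proj 𝒜, U) →+* AtPrime 𝒜 x.asHomogeneousIdeal.toIdeal :=
  (Proj.stalkIso 𝒜 x).hom.hom.comp ((Proj 𝒜).presheaf.germ U x hx).hom

lemma valAt_rs {U V : (Proj 𝒜).Opens} (i : V ≤ U) (x : Proj 𝒜) (hx : x ∈ V) (s : Γ(Proj 𝒜, U)) :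
    valAt 𝒜 V x hx (rs i s) = valAt 𝒜 U x (i hx) s :=
  congrArg (Proj.stalkIso 𝒜 x).hom.hom
    (TopCat.Presheaf.germ_res_apply (Proj 𝒜).presheaf (homOfLE i) _ hx s)

lemma valAt_away (f : A) (x : Proj 𝒜) (hx : x ∈ Proj.basicOpen 𝒜 f) (y : Away 𝒜 f) :
    valAt 𝒜 _ x hx (Proj.awayToSection 𝒜 f y) = mapId 𝒜 (Submonoid.powers_le.mpr hx) y :=
  Proj.stalkIso'_germ 𝒜 _ x hx _

lemma mem_basicOpen_iff {U : (Proj 𝒜).Opens} (x : Proj 𝒜) (hx : x ∈ U) (s : Γ(Proj 𝒜, U)) :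
    x ∈ (Proj 𝒜).basicOpen s ↔ IsUnit (valAt 𝒜 U x hx s) := by
  rw [Scheme.mem_basicOpen _ s x hx]
  exact (MulEquiv.isUnit_map (Proj.stalkIso 𝒜 x).commRingCatIsoToRingEquiv).symm

lemma isUnit_mk {p : Ideal A} [p.IsPrime] (c : NumDenSameDeg 𝒜 p.primeCompl) :
    IsUnit (mk c : AtPrime 𝒜 p) ↔ (c.num : A) ∉ p := by
  rw [← isUnit_iff_isUnit_val, val_mk, Localization.mk_eq_mk',
    IsLocalization.AtPrime.isUnit_mk'_iff _ p]
  rfl

lemma ι_toSpecZero (f : A) : (Proj.basicOpen 𝒜 f).ι ≫ Proj.toSpecZero 𝒜 =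
    Proj.basicOpenToSpec 𝒜 f ≫ Spec.map (CommRingCat.ofHom (fromZeroRingHom 𝒜 _)) := by
  rw [Proj.toSpecZero, Proj.basicOpenToSpec]
  have (U) (e : U = ⊤) : (Proj.basicOpen 𝒜 f).ι ≫ (Scheme.topIso _).inv ≫
      (Scheme.isoOfEq _ e).inv = Scheme.homOfLE _ (le_top.trans_eq e.symm) := by
    simp only [← Category.assoc, Iso.comp_inv_eq]
    simp only [Scheme.topIso_hom, Category.assoc, Scheme.isoOfEq_hom_ι, Scheme.homOfLE_ι]
  rw [reassoc_of% this, Category.assoc, Proj.basicOpenToSpec, Category.assoc,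
    ← Scheme.Opens.toSpecΓ_SpecMap_presheaf_map_assoc,
    ← Spec.map_comp, ← Spec.map_comp, ← Spec.map_comp]
  rfl

lemma fn_zero (f : A) (a : 𝒜 0) : fnHom (Proj.toSpecZero 𝒜) (Proj.basicOpen 𝒜 f) a =
    Proj.awayToSection 𝒜 f (fromZeroRingHom 𝒜 _ a) := by
  have h := congrArg Scheme.Hom.appTop (ι_toSpecZero 𝒜 f)
  have h2 : (Proj.basicOpenToSpec 𝒜 f).appTop = _ := Proj.basicOpenToSpec_app_top 𝒜 f
  rw [Scheme.Hom.comp_appTop, Scheme.Hom.comp_appTop, Scheme.Opens.ι_appTop, h2,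
    Scheme.ΓSpecIso_naturality_assoc, ← Iso.inv_comp_eq, ← Category.assoc, ← Category.assoc,
    Iso.eq_comp_inv, Category.assoc, Scheme.Opens.topIso_hom] at h
  erw [← Functor.map_comp] at h
  exact congrArg (fun φ => φ.hom a) h

lemma valAt_fn (U : (Proj 𝒜).Opens) (x : Proj 𝒜) (hx : x ∈ U) (a : 𝒜 0) :
    valAt 𝒜 U x hx (fnHom (Proj.toSpecZero 𝒜) U a) = fromZeroRingHom 𝒜 _ a := by
  have h1 : x ∈ Proj.basicOpen 𝒜 1 := by rw [Proj.basicOpen_one]; trivial
  have h2 := valAt_away 𝒜 1 x h1 (fromZeroRingHom 𝒜 _ a)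
  rw [← fn_zero] at h2
  exact (valAt_rs 𝒜 le_top x hx _).trans ((valAt_rs 𝒜 le_top x h1 _).symm.trans h2)

variable {R : Type} [CommRing R] (φ : R →+* 𝒜 0)

/-- the structure morphism -/
noncomputable def rho : Proj 𝒜 ⟶ Spec (CommRingCat.of R) :=
  Proj.toSpecZero 𝒜 ≫ Spec.map (CommRingCat.ofHom φ)

lemma rho_proper [Algebra.FiniteType (𝒜 0) A] (h : Function.Bijective φ) :
    IsProper (rho 𝒜 φ) := by
  have : IsIso (CommRingCat.ofHom φ) := (ConcreteCategory.isIso_iff_bijective _).2 h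
  unfold rho
  infer_instance

lemma rho_preimage (g : R) (x : Proj 𝒜) :
    x ∈ rho 𝒜 φ ⁻¹ᵁ PrimeSpectrum.basicOpen g ↔ (φ g : A) ∉ x.asHomogeneousIdeal := by
  rw [← basicOpen_eq_of_affine (R := CommRingCat.of R), Scheme.preimage_basicOpen_top,
    mem_basicOpen_iff 𝒜 (U := ⊤) x trivial]
  have := valAt_fn 𝒜 ⊤ x trivial (φ g)
  rw [← fn_comp, fn_eq, fnHom, RingHom.comp_apply, rs_self] at this
  erw [this]
  exact isUnit_mk _ _

variable [IsDomain A]

/-- the generic point -/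
def botPt {f : A} {m : ℕ} (hf : f ∈ 𝒜 m) (hm : 0 < m) (h0 : f ≠ 0) : Proj 𝒜 :=
  ⟨⊥, Ideal.isPrime_bot, fun h => h0 (h ((HomogeneousIdeal.mem_irrelevant_iff _ _).2
    (DirectSum.decompose_of_mem_ne 𝒜 hf hm.ne')))⟩

lemma isIntegral_proj {f : A} {m : ℕ} (hf : f ∈ 𝒜 m) (hm : 0 < m) (h0 : f ≠ 0) :
    IsIntegral (Proj 𝒜) := by
  have key : ∀ U : Set (Proj 𝒜), IsOpen U → U.Nonempty → botPt 𝒜 hf hm h0 ∈ U := by
    rintro U hU ⟨x, hx⟩
    obtain ⟨_, ⟨g, rfl⟩, h1, h2⟩ := Opens.isBasis_iff_nbhd.1 (Proj.isBasis_basicOpen 𝒜)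
      (show x ∈ (⟨U, hU⟩ : (Proj 𝒜).Opens) from hx)
    refine h2 fun h => h1 ?_
    rw [show g = 0 from h]
    exact zero_mem _
  have : Nonempty (Proj 𝒜) := ⟨botPt 𝒜 hf hm h0⟩
  have : PreirreducibleSpace (Proj 𝒜) := ⟨fun U V hU hV h1 h2 =>
    ⟨_, trivial, key U hU (h1.mono Set.inter_subset_right),
      key V hV (h2.mono Set.inter_subset_right)⟩⟩
  have : IrreducibleSpace (Proj 𝒜) := ⟨inferInstance⟩
  have : ∀ x : Proj 𝒜, _root_.IsReduced ((Proj 𝒜).presheaf.stalk x) := fun x =>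
    isReduced_of_injective ((algebraMap _ (Localization.AtPrime x.asHomogeneousIdeal.toIdeal)).comp
      (Proj.stalkIso 𝒜 x).hom.hom)
      ((val_injective _).comp (Proj.stalkIso 𝒜 x).commRingCatIsoToRingEquiv.injective)
  have := isReduced_of_isReduced_stalk (Proj 𝒜)
  exact isIntegral_of_irreducibleSpace_of_isReduced _

variable {𝒜} [Field K] {ev : A →+* K} (hev : ∀ n, ∀ a ∈ 𝒜 n, ev a = 0 → a = 0)
  {S : Submonoid A} (hS : 0 ∉ S)

include hev hS

omit [AddSubgroupClass σ A] [GradedRing 𝒜] [IsDomain A] in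
lemma den_ne (c : NumDenSameDeg 𝒜 S) : ev c.den ≠ 0 :=
  fun h => hS (hev _ _ c.den.2 h ▸ c.den_mem)

omit [AddSubgroupClass σ A] [GradedRing 𝒜] in
lemma div_mk (c : NumDenSameDeg 𝒜 S) :
    ev (mk c).num / ev (mk c).den = ev c.num / ev c.den := by
  have h := eq_num_div_den (mk c)
  rw [val_mk, Localization.mk_eq_mk_iff, Localization.r_iff_exists] at h
  obtain ⟨u, hu⟩ := h
  have h2 := congrArg ev (mul_left_cancel₀ (fun h => hS (h ▸ u.2)) hu)
  rw [map_mul, map_mul] at h2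
  exact (div_eq_div_iff (den_ne hev hS (Quotient.out (mk c))) (den_ne hev hS c)).2
    ((mul_comm _ _).trans (h2.symm.trans (mul_comm _ _)))

/-- homogeneous fractions inside the field -/
noncomputable def toK : HomogeneousLocalization 𝒜 S →+* K where
  toFun y := ev y.num / ev y.den
  map_one' := by
    rw [← mk_one, div_mk hev hS]
    simp
  map_zero' := by
    rw [← mk_zero, div_mk hev hS]
    simp
  map_mul' y z := by
    obtain ⟨y, rfl⟩ := mk_surjective y
    obtain ⟨z, rfl⟩ := mk_surjective z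
    rw [← mk_mul, div_mk hev hS, div_mk hev hS, div_mk hev hS, div_mul_div_comm]
    simp
  map_add' y z := by
    obtain ⟨y, rfl⟩ := mk_surjective y
    obtain ⟨z, rfl⟩ := mk_surjective z
    rw [← mk_add, div_mk hev hS, div_mk hev hS, div_mk hev hS,
      div_add_div _ _ (den_ne hev hS y) (den_ne hev hS z)]
    simp only [NumDenSameDeg.num_add, NumDenSameDeg.den_add, map_add, map_mul]
    ring

lemma toK_mk (c : NumDenSameDeg 𝒜 S) : toK hev hS (mk c) = ev c.num / ev c.den :=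
  div_mk hev hS c

lemma toK_inj : Function.Injective (toK hev hS) := by
  refine (injective_iff_map_eq_zero _).2 fun y hy => ?_
  obtain ⟨y, rfl⟩ := mk_surjective y
  rw [toK_mk, div_eq_zero_iff, or_iff_left (den_ne hev hS y)] at hy
  exact mk_eq_zero_of_num y (Subtype.ext (hev _ _ y.num.2 hy))

lemma toK_zero (a : 𝒜 0) : toK hev hS (fromZeroRingHom 𝒜 S a) = ev a := by
  refine (toK_mk hev hS _).trans ?_
  simp

lemma toK_mapId {T : Submonoid A} (h : T ≤ S) (y : HomogeneousLocalization 𝒜 T) :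
    toK hev hS (mapId 𝒜 h y) = toK hev (fun h0 => hS (h h0)) y := by
  obtain ⟨y, rfl⟩ := mk_surjective y
  exact (toK_mk hev hS _).trans (toK_mk hev _ y).symm

omit hS

lemma rho_birational {ι : R →+* K} (hι : Function.Injective ι) (h1 : ∀ a, ev (φ a) = ι a)
    (h2 : ∀ n, ∀ a ∈ 𝒜 n, ∃ b, ev a = ι b) {t : A} (ht : t ∈ 𝒜 1) {g : R} (hg : ι g ≠ 0)
    (hgt : ev t = ι g) (h3 : ∀ y : Proj 𝒜, (φ g : A) ∉ y.asHomogeneousIdeal →
      t ∉ y.asHomogeneousIdeal) : IsIso (rho 𝒜 φ ∣_ PrimeSpectrum.basicOpen g) := by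
  obtain ⟨x, hx⟩ : ∃ x, x = φ g * t := ⟨_, rfl⟩
  have hx1 : x ∈ 𝒜 1 := hx ▸ SetLike.mul_mem_graded (i := 0) (j := 1) (φ g).2 ht
  have hxe : ev x = ι g ^ 2 := by rw [hx, map_mul, h1, hgt, sq]
  have h0 : 0 ∉ Submonoid.powers x := by
    rintro ⟨n, hn⟩
    have := congrArg ev hn
    rw [map_pow, hxe, map_zero] at this
    exact pow_ne_zero _ (pow_ne_zero _ hg) this
  let := ((fromZeroRingHom 𝒜 (Submonoid.powers x)).comp φ).toAlgebra
  have hφ : ∀ a, toK hev h0 (algebraMap R (Away 𝒜 x) a) = ι a := fun a =>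
    (toK_zero hev h0 _).trans (h1 a)
  have hinj := toK_inj hev h0
  have hmk : ∀ n a ha, toK hev h0 (Away.mk _ hx1 n a ha) = ev a / (ι g ^ 2) ^ n :=
    fun n a ha => by rw [← hxe, ← map_pow]; exact toK_mk _ _ _
  have : IsLocalization.Away g (Away 𝒜 x) := by
    refine IsLocalization.Away.mk _ (.of_mul_eq_one (Away.mk _ hx1 1 _ ht) (hinj ?_))
      (fun s => ?_) fun a b h => ⟨0, ?_⟩
    · rw [map_mul, map_one, hmk, hgt, hφ]
      field_simp
    · obtain ⟨n, a, ha, rfl⟩ := Away.mk_surjective _ hx1 s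
      obtain ⟨b, hb⟩ := h2 _ a ha
      refine ⟨2 * n, b, hinj ?_⟩
      rw [map_mul, map_pow, hmk, hb, hφ, hφ, pow_mul,
        div_mul_cancel₀ _ (pow_ne_zero _ (pow_ne_zero _ hg))]
    · rw [hι ((hφ a).symm.trans ((congrArg _ h).trans (hφ b)))]
  have e : Proj.awayι _ x hx1 one_pos ≫ rho 𝒜 φ =
      Spec.map (CommRingCat.ofHom (algebraMap R (Away 𝒜 x))) := by
    rw [rho, Proj.awayι_toSpecZero_assoc, ← Spec.map_comp]
    rfl
  have : IsOpenImmersion (Proj.awayι _ x hx1 one_pos ≫ rho 𝒜 φ) :=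
    e ▸ IsOpenImmersion.of_isLocalization g
  refine isIso_res _ (Proj.awayι _ x hx1 one_pos) _ ?_ ?_
  · rw [Proj.opensRange_awayι, hx]
    ext y
    refine Iff.trans ?_ (rho_preimage _ φ g y).symm
    exact ⟨fun h h' => h (Ideal.mul_mem_right _ y.asHomogeneousIdeal.toIdeal h'),
      fun h h' => (y.isPrime.mem_or_mem h').elim h (h3 y h)⟩
  · ext1
    rw [Scheme.Hom.coe_opensRange, e]
    exact PrimeSpectrum.localization_away_comap_range _ _

variable [IsIntegral (Proj 𝒜)]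

/-- the function field inside the field -/
noncomputable def eps : (Proj 𝒜).functionField →+* K :=
  (toK hev (zero_not (gp (Proj 𝒜)).asHomogeneousIdeal.toIdeal)).comp
    (Proj.stalkIso 𝒜 (gp (Proj 𝒜))).hom.hom

lemma eps_away {f : A} (h0 : 0 ∉ Submonoid.powers f) (h : gp (Proj 𝒜) ∈ Proj.basicOpen 𝒜 f)
    (y : Away 𝒜 f) : eps hev (emb _ h (Proj.awayToSection 𝒜 f y)) = toK hev h0 y :=
  (congrArg (toK hev (zero_not _)) (valAt_away 𝒜 f _ h y)).trans (toK_mapId hev (zero_not _) _ y)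

lemma eps_fn (U : (Proj 𝒜).Opens) (h : gp (Proj 𝒜) ∈ U) (a : 𝒜 0) :
    eps hev (emb U h (fnHom (Proj.toSpecZero 𝒜) U a)) = ev a :=
  (congrArg (toK hev (zero_not _)) (valAt_fn 𝒜 U _ h a)).trans (toK_zero hev (zero_not _) a)

end general

section rees

open Polynomial

variable {R : Type} [CommRing R] (I : Ideal R)

/-- the grading of the Rees algebra -/
noncomputable def gr (n : ℕ) : Submodule R (reesAlgebra I) :=
  (LinearMap.range (monomial n : R →ₗ[R] R[X])).comap (reesAlgebra I).val.toLinearMap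

variable {I}

lemma mem_gr {n : ℕ} {p : reesAlgebra I} : p ∈ gr I n ↔ ∃ a, monomial n a = p.1 := Iff.rfl

/-- a homogeneous element -/
noncomputable def mo (n : ℕ) (a : R) (h : a ∈ I ^ n) : reesAlgebra I :=
  ⟨monomial n a, reesAlgebra.monomial_mem.2 h⟩

lemma mo_mem (n : ℕ) (a : R) (h : a ∈ I ^ n) : mo n a h ∈ gr I n := ⟨a, rfl⟩

lemma exists_mo {n : ℕ} {p : reesAlgebra I} (h : p ∈ gr I n) : ∃ a ha, p = mo n a ha := by
  obtain ⟨a, ha⟩ := mem_gr.1 h
  exact ⟨a, reesAlgebra.monomial_mem.1 (ha ▸ p.2), Subtype.ext ha.symm⟩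

lemma gr_internal : DirectSum.IsInternal (gr I) := by
  refine DirectSum.isInternal_submodule_of_iSupIndep_of_iSup_eq_top (fun n => ?_) ?_
  · have : ⨆ j, ⨆ (_ : j ≠ n), gr I j ≤
        LinearMap.ker ((lcoeff R n).comp (reesAlgebra I).val.toLinearMap) :=
      iSup₂_le fun j hj p hp => by
        obtain ⟨a, ha, rfl⟩ := exists_mo hp
        exact coeff_monomial_of_ne _ hj.symm
    refine Submodule.disjoint_def.2 fun p hp hq => ?_
    obtain ⟨a, ha, rfl⟩ := exists_mo hp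
    have h0 : a = 0 := (coeff_monomial_same n a).symm.trans (this hq)
    subst h0
    exact Subtype.ext (monomial_zero_right n)
  · refine eq_top_iff.2 fun p _ => ?_
    have : p = ∑ i ∈ p.1.support, mo i (p.1.coeff i) (p.2 i) :=
      Subtype.ext (by rw [AddSubmonoidClass.coe_finsetSum]; exact p.1.as_sum_support)
    rw [this]
    exact sum_mem fun i _ => Submodule.mem_iSup_of_mem i (mo_mem _ _ _)

noncomputable instance : GradedRing (gr I) where
  one_mem := ⟨1, rfl⟩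
  mul_mem := by
    rintro i j p q ⟨a, ha⟩ ⟨b, hb⟩
    exact ⟨a * b, (monomial_mul_monomial i j a b).symm.trans (congrArg₂ (· * ·) ha hb)⟩
  toDecomposition := gr_internal.chooseDecomposition

lemma zero_bij : Function.Bijective (algebraMap R (gr I 0)) := by
  refine ⟨fun a b h => C_injective (congrArg (fun p => p.1.1) h), fun p => ?_⟩
  obtain ⟨a, ha⟩ := mem_gr.1 p.2
  exact ⟨a, Subtype.ext (Subtype.ext ha)⟩

instance : IsScalarTower R (gr I 0) (reesAlgebra I) := 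
  ⟨fun a b c => smul_mul_assoc a (b : reesAlgebra I) c⟩

variable {Λ : Type} (r : Λ → R)

/-- the generators -/
noncomputable def T (i : Λ) : reesAlgebra (Ideal.span (Set.range r)) :=
  mo 1 (r i) (by rw [pow_one]; exact Ideal.subset_span ⟨i, rfl⟩)

lemma T_mem (i : Λ) : T r i ∈ gr _ 1 := mo_mem _ _ _

lemma adjoin_T : Algebra.adjoin R (Set.range (T r)) = ⊤ := by
  apply Subalgebra.map_injective (f := (reesAlgebra _).val) Subtype.val_injective
  rw [Algebra.map_top, Subalgebra.range_val, AlgHom.map_adjoin, ← Set.range_comp]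
  refine Eq.trans ?_ (adjoin_monomial_eq_reesAlgebra _)
  have := Submodule.map_span (monomial 1 : R →ₗ[R] R[X]) (Set.range r)
  rw [Ideal.submodule_span_eq] at this
  rw [this, Algebra.adjoin_span, ← Set.range_comp]
  rfl

lemma adjoin_T' : Algebra.adjoin (gr (Ideal.span (Set.range r)) 0) (Set.range (T r)) = ⊤ := by
  refine eq_top_iff.2 fun p _ => ?_
  have : Algebra.adjoin R (Set.range (T r)) ≤ (Algebra.adjoin (gr (Ideal.span (Set.range r)) 0)
      (Set.range (T r))).restrictScalars R := Algebra.adjoin_le Algebra.subset_adjoin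
  exact this (adjoin_T r ▸ Algebra.mem_top)

lemma exists_T (x : Proj (gr (Ideal.span (Set.range r)))) : ∃ i, T r i ∉ x.asHomogeneousIdeal :=
  Opens.mem_iSup.1 ((Proj.iSup_basicOpen_eq_top' _ (T r) (fun i => ⟨1, T_mem r i⟩)
    (adjoin_T' r)).ge (Set.mem_univ x))

lemma finiteType [Finite Λ] : Algebra.FiniteType (gr (Ideal.span (Set.range r)) 0)
    (reesAlgebra (Ideal.span (Set.range r))) :=
  ⟨Subalgebra.fg_def.2 ⟨_, Set.finite_range _, adjoin_T' r⟩⟩

variable {K : Type} [Field K] (ι : R →+* K)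

/-- evaluation at one -/
noncomputable def ev1 (I : Ideal R) : reesAlgebra I →+* K :=
  (eval₂RingHom ι 1).comp (reesAlgebra I).val.toRingHom

lemma ev1_mo (n : ℕ) (a : R) (h : a ∈ I ^ n) : ev1 ι I (mo n a h) = ι a := by
  refine (eval₂_monomial ι 1).trans ?_
  rw [one_pow, mul_one]

lemma ev1_T (i : Λ) : ev1 ι _ (T r i) = ι (r i) := ev1_mo ι _ _ _

variable {ι}

lemma ev1_inj (hι : Function.Injective ι) (n : ℕ) (p : reesAlgebra I) (hp : p ∈ gr I n)
    (h : ev1 ι I p = 0) : p = 0 := by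
  obtain ⟨a, ha, rfl⟩ := exists_mo hp
  rw [ev1_mo, map_eq_zero_iff ι hι] at h
  subst h
  exact Subtype.ext (monomial_zero_right n)

lemma div_mem {S : Subring K} {g : K} (h1 : ∀ a, ι a ∈ S) (h2 : ∀ i, ι (r i) / g ∈ S) (n : ℕ) :
    ∀ a ∈ Ideal.span (Set.range r) ^ n, ι a / g ^ n ∈ S := by
  have h : ∀ a ∈ Ideal.span (Set.range r), ι a / g ∈ S := fun a ha => by
    induction ha using Submodule.span_induction with
    | mem x hx => obtain ⟨i, rfl⟩ := hx; exact h2 i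
    | zero => simp
    | add x y _ _ hx hy => rw [map_add, add_div]; exact add_mem hx hy
    | smul c x _ hx => rw [smul_eq_mul, map_mul, mul_div_assoc]; exact mul_mem (h1 c) hx
  induction n with
  | zero => simpa using h1
  | succ n ih =>
    intro a ha
    rw [pow_succ] at ha
    refine Submodule.mul_induction_on ha (fun b hb c hc => ?_) fun x y hx hy => ?_
    · rw [map_mul, pow_succ, ← div_mul_div_comm]
      exact mul_mem (ih b hb) (h c hc)
    · rw [map_add, add_div]; exact add_mem hx hy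

/-- the ring in degree zero -/
noncomputable def zm (I : Ideal R) : R →+* gr I 0 := algebraMap R (gr I 0)

lemma T_comm (i j : Λ) : (zm _ (r i)).1 * T r j = (zm _ (r j)).1 * T r i :=
  Subtype.ext ((C_mul_monomial ..).trans ((congrArg _ (mul_comm _ _)).trans
    (C_mul_monomial ..).symm))

lemma T_sq {κ : Type} [Fintype κ] (e : κ → Λ) (i : Λ) (w : κ → R)
    (hw : ∀ k, w k ∈ Ideal.span (Set.range r) ^ 1) (h : r i ^ 2 = ∑ k, r (e k) * w k) :
    T r i ^ 2 = ∑ k, T r (e k) * mo 1 (w k) (hw k) := by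
  refine Subtype.ext ?_
  rw [AddSubmonoidClass.coe_finsetSum]
  refine (monomial_pow 1 (r i) 2).trans ?_
  rw [h, map_sum]
  exact Finset.sum_congr rfl fun k _ => (monomial_mul_monomial 1 1 _ _).symm

lemma ev1_zm (a : R) : ev1 ι I (zm I a).1 = ι a := eval₂_C ι 1

lemma rees_birational [IsDomain R] (hι : Function.Injective ι) (i : Λ) (hi : ι (r i) ≠ 0) :
    IsIso (rho _ (zm (Ideal.span (Set.range r))) ∣_ PrimeSpectrum.basicOpen (r i)) := by
  have h1 := rho_birational (zm (Ideal.span (Set.range r))) (ev1_inj hι) hι ev1_zm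
    (fun n a ha => by
      obtain ⟨b, hb, rfl⟩ := exists_mo ha
      exact ⟨b, ev1_mo _ _ _ _⟩) (T_mem r i) hi (ev1_T r _ _)
  refine h1 fun y h h' => ?_
  obtain ⟨j, hj⟩ := exists_T r y
  have h4 := Ideal.mul_mem_left _ (zm _ (r j)).1 h'
  rw [← T_comm] at h4
  exact (y.isPrime.mem_or_mem h4).elim h hj

end rees

/-- the blow-up of an ideal, described inside a field -/
theorem rowGEO : RowGEO := by
  intro K R _ _ _ _ ι hι _ Λ κ _ _ hκ r e hr hw
  have : IsDomain R := hι.isDomain ι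
  obtain ⟨k0⟩ := hκ
  have hr' : ∀ k, ι (r (e k)) ≠ 0 := fun k => (map_ne_zero_iff ι hι).2 (hr k)
  have hev := ev1_inj (I := Ideal.span (Set.range r)) (ι := ι.toRingHom) hι
  have hT : ∀ k, T r (e k) ≠ 0 := fun k h => hr' k ((ev1_T r ι.toRingHom _).symm.trans
    ((congrArg _ h).trans (map_zero _)))
  have h0 : ∀ k, 0 ∉ Submonoid.powers (T r (e k)) := fun k ⟨n, hn⟩ => pow_ne_zero n (hT k) hn
  have hint := isIntegral_proj _ (T_mem r (e k0)) one_pos (hT k0)
  have hU : ∀ k, gp (Proj (gr (Ideal.span (Set.range r)))) ∈ Proj.basicOpen _ (T r (e k)) :=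
    fun k => gen_mem (y := botPt _ (T_mem r (e k0)) one_pos (hT k0)) (hT k)
  have hft := finiteType r
  have hmk : ∀ k n a ha, eps hev (emb _ (hU k) (Proj.awayToSection _ _
      (Away.mk _ (T_mem r (e k)) n a ha))) = ev1 ι.toRingHom _ a / ι (r (e k)) ^ n :=
    fun k n a ha => (eps_away hev (h0 k) _ _).trans ((toK_mk hev _ _).trans
      (congrArg _ ((map_pow _ _ n).trans (congrArg (· ^ n) (ev1_T r _ _)))))
  have hfn : ∀ (f : R) V h, eps hev (emb V h (fn (rho _ (zm _)) f V)) = ι f := fun f V h =>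
    (congrArg (fun s => eps hev (emb V h s)) (fn_comp _ _ f V)).trans
      ((eps_fn hev V h _).trans (ev1_zm f))
  refine ⟨_, hint, rho _ (zm _), fun k => Proj.basicOpen _ (T r (e k)), eps hev, hU,
    rho_proper _ _ zero_bij, ⟨PrimeSpectrum.basicOpen (r (e k0)), ?_,
      rees_birational r (ι := ι.toRingHom) hι _ (hr' k0)⟩,
    fun k => Proj.isAffineOpen_basicOpen _ _ (T_mem r _) one_pos, fun y => ?_, hfn,
    fun k z => ⟨fun hz => ?_, ?_⟩, fun k l => ⟨_, (hmk k 1 _ (T_mem r (e l))).trans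
      (congrArg₂ _ (ev1_T r _ _) (pow_one _)), ?_⟩⟩
  · exact IsOpen.dense (PrimeSpectrum.basicOpen _).isOpen ⟨(⊥ : PrimeSpectrum R), hr k0⟩
  · by_contra! hy
    obtain ⟨i, hi⟩ := exists_T r y
    obtain ⟨w, h1, h2⟩ := hw i
    refine hi (y.isPrime.mem_of_pow_mem 2 ?_)
    rw [T_sq r e i w (fun k => (pow_one (Ideal.span (Set.range r))).symm ▸ h1 k) h2]
    exact sum_mem fun k _ => Ideal.mul_mem_right _ _ (not_not.1 (hy k))
  · change z ∈ ((eps hev).comp (emb _ (hU k))).range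
    induction hz using Algebra.adjoin_induction with
    | mem x hx =>
      rcases hx with ⟨f, rfl⟩ | ⟨i, rfl⟩
      · exact ⟨_, hfn f _ _⟩
      · exact ⟨_, (hmk k 1 _ (T_mem r i)).trans (congrArg₂ _ (ev1_T r _ _) (pow_one _))⟩
    | algebraMap c => exact ⟨_, (hfn (algebraMap ℂ R c) _ _).trans (ι.commutes c)⟩
    | add x y _ _ hx hy => exact add_mem hx hy
    | mul x y _ _ hx hy => exact mul_mem hx hy
  · rintro ⟨s, rfl⟩
    obtain ⟨y, rfl⟩ := (Proj.basicOpenIsoAway _ _ (T_mem r (e k))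
      one_pos).commRingCatIsoToRingEquiv.surjective s
    obtain ⟨n, a, ha, rfl⟩ := Away.mk_surjective _ (T_mem r (e k)) y
    obtain ⟨b, hb, rfl⟩ := exists_mo ha
    refine ((hmk k n _ ha).trans (congrArg (· / _) (ev1_mo _ _ _ _))).symm ▸ ?_
    exact div_mem r (ι := ι.toRingHom) (S := (Algebra.adjoin ℂ _).toSubring)
      (fun a => Algebra.subset_adjoin (.inl ⟨a, rfl⟩))
      (fun i => Algebra.subset_adjoin (.inr ⟨i, rfl⟩)) n b (by simpa using hb)
  · ext y
    by_cases hy : y ∈ Proj.basicOpen _ (T r (e k))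
    · refine (mem_basicOpen_iff _ y hy _).trans ?_
      rw [valAt_away]
      exact (isUnit_mk _ _).trans ⟨fun h => ⟨hy, h⟩, fun h => h.2⟩
    · exact ⟨fun h => (hy (Scheme.basicOpen_le _ _ h)).elim, fun h => (hy h.1).elim⟩

end Pool.Agent.MP_86c931_ag.H19
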